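import Pool.Agent.Helper5.N2.Stmts2

/-!
# N2, row CON: smooth functions with vanishing derivatives are constant
-/

set_option autoImplicit false

namespace N59
open N2

theorem st_CON : ST_CON := by
  intro f h1 h2
  have hd : ∀ p, fderiv ℝ f.val p = 0 := by
    intro p
    have e1 : (D f).val p = 0 := by rw [h1]; rfl
    have e2 : (D' f).val p = 0 := by rw [h2]; rfl
    rw [D_val] at e1
    rw [D'_val] at e2
    have a1 : fderiv ℝ f.val p (1, 0) = 0 := by linear_combination e1 + e2
    have a2 : fderiv ℝ f.val p (0, 1) = 0 := by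
      have h : Complex.I * fderiv ℝ f.val p (0, 1) = 0 := by linear_combination e2 - e1
      rcases mul_eq_zero.1 h with h | h
      · exact absurd h Complex.I_ne_zero
      · exact h
    apply ContinuousLinearMap.ext
    rintro ⟨x, y⟩
    have hxy : ((x, y) : ℝ × ℝ) = x • ((1, 0) : ℝ × ℝ) + y • ((0, 1) : ℝ × ℝ) := by simp
    rw [hxy, map_add, map_smul, map_smul, a1, a2]
    simp
  refine ⟨f.val 0, ?_⟩
  apply Sm.ext
  intro p
  rw [Cst_val]
  exact is_const_of_fderiv_eq_zero f.diff hd p 0

end N59
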