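import Pool.Agent.Helper5.N2.Stmts2

/-!
# N2, row GRAM: Gram determinants of normal vectors in `ℂ⁴`
-/

set_option autoImplicit false

namespace N59
open N2

theorem st_GRAM : ST_GRAM := by
  intro A B v1 v2 v3 w1 w2 w3 hAA hBB hAB hv
  have hv1 := hv v1 (by simp)
  have hv2 := hv v2 (by simp)
  have hv3 := hv v3 (by simp)
  have hw1 := hv w1 (by simp)
  have hw2 := hv w2 (by simp)
  have hw3 := hv w3 (by simp)
  -- a linear relation between `A, B, v1, v2, v3`
  obtain ⟨x, hx0, hx⟩ : ∃ x : Fin 5 → ℂ, x ≠ 0 ∧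
      ∀ i, x 0 * A i + x 1 * B i + x 2 * v1 i + x 3 * v2 i + x 4 * v3 i = 0 := by
    let f : (Fin 5 → ℂ) →ₗ[ℂ] (Fin 4 → ℂ) := Matrix.mulVecLin
      (Matrix.of fun (i : Fin 4) (j : Fin 5) => (![A i, B i, v1 i, v2 i, v3 i] : Fin 5 → ℂ) j)
    have hk : LinearMap.ker f ≠ ⊥ := by
      apply LinearMap.ker_ne_bot_of_finrank_lt
      rw [Module.finrank_fin_fun, Module.finrank_fin_fun]
      norm_num
    obtain ⟨x, hxk, hx0⟩ := (Submodule.ne_bot_iff _).1 hk
    refine ⟨x, hx0, fun i => ?_⟩
    have h1 := congrFun (LinearMap.mem_ker.1 hxk) i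
    simp only [f, Matrix.mulVecLin_apply, Matrix.mulVec, dotProduct, Matrix.of_apply,
      Fin.sum_univ_five, Pi.zero_apply] at h1
    simp at h1
    linear_combination h1
  have key : ∀ u : Fin 4 → ℂ, x 0 * (∑ i, A i * u i) + x 1 * (∑ i, B i * u i)
      + x 2 * (∑ i, v1 i * u i) + x 3 * (∑ i, v2 i * u i) + x 4 * (∑ i, v3 i * u i) = 0 := by
    intro u
    have h2 : x 0 * (∑ i, A i * u i) + x 1 * (∑ i, B i * u i)
      + x 2 * (∑ i, v1 i * u i) + x 3 * (∑ i, v2 i * u i) + x 4 * (∑ i, v3 i * u i)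
      = ∑ i, (x 0 * A i + x 1 * B i + x 2 * v1 i + x 3 * v2 i + x 4 * v3 i) * u i := by
      simp only [Finset.mul_sum, ← Finset.sum_add_distrib]
      refine Finset.sum_congr rfl fun i _ => ?_
      ring
    rw [h2]
    refine Finset.sum_eq_zero fun i _ => ?_
    rw [hx i, zero_mul]
  have hx0' : x 0 = 0 := by
    have h3 := key B
    rw [hBB, hv1.2, hv2.2, hv3.2] at h3
    have h4 : x 0 * (∑ i, A i * B i) = 0 := by linear_combination h3
    exact (mul_eq_zero.1 h4).resolve_right hAB
  have hx1' : x 1 = 0 := by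
    have h3 := key A
    have h5 : (∑ i, B i * A i) = ∑ i, A i * B i := Finset.sum_congr rfl fun i _ => mul_comm _ _
    rw [hAA, hv1.1, hv2.1, hv3.1, h5] at h3
    have h4 : x 1 * (∑ i, A i * B i) = 0 := by linear_combination h3
    exact (mul_eq_zero.1 h4).resolve_right hAB
  set M : Matrix (Fin 3) (Fin 3) ℂ := !![∑ i, v1 i * w1 i, ∑ i, v1 i * w2 i, ∑ i, v1 i * w3 i;
    ∑ i, v2 i * w1 i, ∑ i, v2 i * w2 i, ∑ i, v2 i * w3 i;
    ∑ i, v3 i * w1 i, ∑ i, v3 i * w2 i, ∑ i, v3 i * w3 i] with hM
  have hdet : M.det = 0 := by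
    apply Matrix.exists_vecMul_eq_zero_iff.1
    refine ⟨![x 2, x 3, x 4], ?_, ?_⟩
    · intro h
      apply hx0
      funext j
      have e2 : x 2 = 0 := congrFun h 0
      have e3 : x 3 = 0 := congrFun h 1
      have e4 : x 4 = 0 := congrFun h 2
      fin_cases j
      · exact hx0'
      · exact hx1'
      · exact e2
      · exact e3
      · exact e4
    · have k1 := key w1
      have k2 := key w2
      have k3 := key w3
      rw [hx0', hx1'] at k1 k2 k3
      funext j
      fin_cases j
      · simp [Matrix.vecMul, dotProduct, Fin.sum_univ_three, hM]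
        simp only [Fin.sum_univ_four] at k1
        simp only [Fin.sum_univ_four]
        linear_combination k1
      · simp [Matrix.vecMul, dotProduct, Fin.sum_univ_three, hM]
        simp only [Fin.sum_univ_four] at k2
        simp only [Fin.sum_univ_four]
        linear_combination k2
      · simp [Matrix.vecMul, dotProduct, Fin.sum_univ_three, hM]
        simp only [Fin.sum_univ_four] at k3
        simp only [Fin.sum_univ_four]
        linear_combination k3
  rw [Matrix.det_fin_three] at hdet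
  simp only [hM, Matrix.of_apply, Matrix.cons_val', Matrix.cons_val_zero, Matrix.cons_val_one,
    Matrix.cons_val] at hdet
  linear_combination hdet

end N59
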