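import Pool.Agent.Helper5.N2.Stmts2

/-!
# N2, row ZERO: at a zero of `ps` the normal part of `ps_z` vanishes
-/

set_option autoImplicit false

namespace N59
open N2

/-- the Gram identity for vectors over `R`, read through a character -/
lemma gram3 (hGR : ST_GRAM) {R : Type} [CommRing R] [DR R] (N : Nt R 4) (χ : Ev R)
    (hAA : dot N.A N.A = 0) (hBB : dot N.B N.B = 0) (hF : χ (dot N.A N.B) ≠ 0)
    (v1 v2 v3 w1 w2 w3 : Fin 4 → R)
    (hv : ∀ v ∈ [v1, v2, v3, w1, w2, w3], dot v N.A = 0 ∧ dot v N.B = 0) :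
    χ (dot v1 w1) * (χ (dot v2 w2) * χ (dot v3 w3) - χ (dot v2 w3) * χ (dot v3 w2))
    - χ (dot v1 w2) * (χ (dot v2 w1) * χ (dot v3 w3) - χ (dot v2 w3) * χ (dot v3 w1))
    + χ (dot v1 w3) * (χ (dot v2 w1) * χ (dot v3 w2) - χ (dot v2 w2) * χ (dot v3 w1)) = 0 := by
  simp only [Ev.dot] at hF ⊢
  have e1 : ∑ i, χ (N.A i) * χ (N.A i) = 0 := by rw [← Ev.dot, hAA, map_zero]
  have e2 : ∑ i, χ (N.B i) * χ (N.B i) = 0 := by rw [← Ev.dot, hBB, map_zero]
  refine hGR (fun i => χ (N.A i)) (fun i => χ (N.B i)) (fun i => χ (v1 i)) (fun i => χ (v2 i))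
    (fun i => χ (v3 i)) (fun i => χ (w1 i)) (fun i => χ (w2 i)) (fun i => χ (w3 i)) e1 e2 hF ?_
  intro v hv'
  have key : ∀ u : Fin 4 → R, dot u N.A = 0 ∧ dot u N.B = 0 →
      ∑ i, χ (u i) * χ (N.A i) = 0 ∧ ∑ i, χ (u i) * χ (N.B i) = 0 := by
    intro u hu
    constructor
    · rw [← Ev.dot, hu.1, map_zero]
    · rw [← Ev.dot, hu.2, map_zero]
  simp only [List.mem_cons, List.not_mem_nil, or_false] at hv'
  rcases hv' with rfl | rfl | rfl | rfl | rfl | rfl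
  · exact key v1 (hv v1 (by simp))
  · exact key v2 (hv v2 (by simp))
  · exact key v3 (hv v3 (by simp))
  · exact key w1 (hv w1 (by simp))
  · exact key w2 (hv w2 (by simp))
  · exact key w3 (hv w3 (by simp))

theorem st_ZERO (h1 : ST_G1) (h2 : ST_G2) (h3 : ST_G3) (h4 : ST_G4) (hP : ST_P) (hDD : ST_DD)
    (hGR : ST_GRAM) : ST_ZERO := by
  intro R _ _ N χ hP5 hk hg
  obtain ⟨cK, cG, cg, cy, GF, DK, D'K, DvB, Dv'A, hBB0, hAB, hAA, psA, psB, DF, D'F, DG, D'G⟩ :=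
    h1 R 4 N
  obtain ⟨bA, bB, taA, taB, b'A, b'B, ta'A, ta'B, hq, hq', Dg, D'g, hal', hU', hVr, hk1', hS', hBBr,
    beA, beB, be'A, be'B⟩ := h2 R 4 N
  obtain ⟨g31, g32, g33, g34, g35, g36, g37, g38, g39, g310, g311, g312⟩ := h3 R 4 N
  obtain ⟨g41, g42, g43, g44, g45, g46, g47, g48⟩ := h4 R 4 N
  obtain ⟨p1, p2, p3, p4, p5, p6, p7, p8, p9, p10, p11⟩ := hP R 4 N hP5
  -- the values of `ps` vanish
  have hps : ∀ i, χ (N.ps i) = 0 := by
    have e1 : χ N.g = ((∑ i, ‖χ (N.ps i)‖ ^ 2 : ℝ) : ℂ) := by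
      have e2 := χ.dot_cjv N.ps
      rw [N.hpr] at e2
      exact e2
    rw [hg] at e1
    have e3 : (∑ i, ‖χ (N.ps i)‖ ^ 2 : ℝ) = 0 := by exact_mod_cast e1.symm
    intro i
    have e4 := (Finset.sum_eq_zero_iff_of_nonneg (fun j _ => sq_nonneg ‖χ (N.ps j)‖)).1 e3 i
      (Finset.mem_univ i)
    exact norm_eq_zero.1 (pow_eq_zero_iff two_ne_zero |>.1 e4)
  have hdot : ∀ v : Fin 4 → R, χ (dot N.ps v) = 0 := by
    intro v
    rw [Ev.dot]
    exact Finset.sum_eq_zero fun i _ => by rw [hps i, zero_mul]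
  have xq : χ N.q = 0 := hdot _
  have xq' : χ N.q' = 0 := by rw [hq']; exact hdot _
  have xal : χ N.al = 0 := hdot _
  have xal' : χ N.al' = 0 := by rw [hal']; exact hdot _
  have xy : χ N.y = 1 := by
    have e : χ N.y = 1 - χ N.K * χ N.g := by simp only [Nt.y, map_sub, map_one, map_mul]
    rw [e, hg]; ring
  have xK : χ N.K = (N.k : ℂ) := χ.hC _
  have xph : χ N.ph = 0 := by
    have e := congrArg χ.h p1
    simp only [map_mul, map_ofNat] at e
    rw [xy, xal] at e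
    linear_combination e
  have xph' : χ N.ph' = 0 := by
    have e : χ N.ph' = (starRingEnd ℂ) (χ N.ph) := χ.hcj _
    rw [e, xph, map_zero]
  -- derivatives
  have xDg : χ (D N.g) = 0 := by rw [Dg, map_mul, xal, mul_zero]
  have xDy : χ (D N.y) = 0 := by
    have e : D N.y = -(N.K * D N.g) := by
      simp only [Nt.y, D_sub, D_one, D_mul, DK]; ring
    rw [e, map_neg, map_mul, xDg]; ring
  have xDF : χ (D N.F) = 0 := by rw [DF, map_mul, xph, zero_mul]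
  have xDal : χ (D N.al) = χ N.U := by
    rw [p4]; simp only [map_add, map_mul, xq]; ring
  have xD'al : χ (D' N.al) = χ N.V := by
    rw [g41]; simp only [map_add, map_sub, map_mul, xq, hg]; ring
  have xG : χ N.F * χ N.G = 1 := by rw [← map_mul, N.hFG, map_one]
  have xBB : χ N.BB = 3 * χ N.K * χ N.F * χ N.V := by
    have e := congrArg χ.h p5
    simp only [map_mul, map_add, map_sub, map_ofNat] at e
    rw [xy, xq, xq', hg, xph] at e
    linear_combination e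
  have xD'ph : χ (D' N.ph) = 3 * χ N.K * χ N.V := by
    rw [g43]
    simp only [map_sub, map_mul, hg]
    rw [xBB]
    linear_combination (3 * χ N.K * χ N.V) * xG
  have D2 : D (2 : R) = 0 := D_ofNat 2
  have D3 : D (3 : R) = 0 := D_ofNat 3
  have xDph : χ (D N.ph) = 3 * χ N.K * χ N.U := by
    have e := congrArg (fun z => χ.h (D z)) p1
    simp only [D_mul, D3, DK, map_add, map_mul, map_zero, map_ofNat] at e
    rw [xDy, xy, xal, xDal] at e
    linear_combination e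
  have xta'be : χ (dot N.ta' N.be) = 2 * χ N.K * χ N.F * χ N.U := by
    have e := congrArg χ.h p7
    simp only [map_mul, map_add, map_sub, map_ofNat] at e
    rw [xq', xq, xph, xDal] at e
    linear_combination e
  have xb'be : χ (dot N.b' N.be) = 0 := by
    have e := congrArg (fun z => χ.h (D z)) p5
    simp only [D_mul, D2, D3, DK, D_add, D_sub, map_add, map_sub, map_mul, map_zero, map_ofNat] at e
    rw [xDy, xy, xDF, xDg, xq, xq', hg, xph, xal', p8, p9] at e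
    simp only [map_add, map_sub, map_mul, xal, xal', xq, xq', map_ofNat] at e
    linear_combination e
  -- values of the products of normal vectors
  have xtb' : χ (dot N.ta N.b') = 0 := by rw [g37]; simp only [map_mul, xal', mul_zero]
  have xt'b : χ (dot N.ta' N.b) = 0 := by rw [g38]; simp only [map_mul, xal, mul_zero]
  have xbt' : χ (dot N.b N.ta') = 0 := by rw [dot_comm]; exact xt'b
  have xb't : χ (dot N.b' N.ta) = 0 := by rw [dot_comm]; exact xtb'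
  have xt't : χ (dot N.ta' N.ta) = χ N.V := by rw [dot_comm]; rfl
  have xbt : χ (dot N.b N.ta) = χ N.k1 := by rw [dot_comm]; rfl
  have xt'b' : χ (dot N.ta' N.b') = χ N.k1' := by rw [← hk1']
  have xt't' : χ (dot N.ta' N.ta') = χ N.U' := by rw [← hU']
  have xb'b : χ (dot N.b' N.b) = χ N.BB := by rw [dot_comm]; rfl
  have xb'b' : χ (dot N.b' N.b') = χ N.S' := by rw [← hS']
  have xbet' : χ (dot N.be N.ta') = 2 * χ N.K * χ N.F * χ N.U := by rw [dot_comm]; exact xta'be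
  have xbeb' : χ (dot N.be N.b') = 0 := by rw [dot_comm]; exact xb'be
  have cKv : (starRingEnd ℂ) (χ N.K) = χ N.K := by rw [← χ.hcj, cK]
  have cFv : (starRingEnd ℂ) (χ N.F) = χ N.F := by rw [← χ.hcj, N.hFr]
  have xtabe' : χ (dot N.ta N.be') = 2 * χ N.K * χ N.F * χ N.U' := by
    have e : dot N.ta N.be' = cj (dot N.ta' N.be) := by
      rw [cj_dot]
      show dot N.ta N.be' = dot (cjv (cjv N.ta)) (cjv N.be)
      rw [cjv_cjv]
      rfl
    rw [e, χ.hcj, xta'be]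
    simp only [map_mul, map_ofNat, cKv, cFv]
    rw [← χ.hcj]
    rfl
  have xbbe' : χ (dot N.b N.be') = 0 := by
    have e : dot N.b N.be' = cj (dot N.b' N.be) := by
      rw [cj_dot]
      show dot N.b N.be' = dot (cjv (cjv N.b)) (cjv N.be)
      rw [cjv_cjv]
      rfl
    rw [e, χ.hcj, xb'be, map_zero]
  have hFne : χ (dot N.A N.B) ≠ 0 := by
    rw [hAB]
    intro h
    rw [h, zero_mul] at xG
    exact zero_ne_one xG
  -- the three Gram identities
  have G1 := gram3 hGR N χ hAA hBB0 hFne N.ta N.ta' N.b N.ta N.ta' N.b' (by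
    intro v hv
    simp only [List.mem_cons, List.not_mem_nil, or_false] at hv
    rcases hv with rfl | rfl | rfl | rfl | rfl | rfl
    · exact ⟨taA, taB⟩
    · exact ⟨ta'A, ta'B⟩
    · exact ⟨bA, bB⟩
    · exact ⟨taA, taB⟩
    · exact ⟨ta'A, ta'B⟩
    · exact ⟨b'A, b'B⟩)
  have G2 := gram3 hGR N χ hAA hBB0 hFne N.ta' N.b N.b' N.ta N.b N.b' (by
    intro v hv
    simp only [List.mem_cons, List.not_mem_nil, or_false] at hv
    rcases hv with rfl | rfl | rfl | rfl | rfl | rfl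
    · exact ⟨ta'A, ta'B⟩
    · exact ⟨bA, bB⟩
    · exact ⟨b'A, b'B⟩
    · exact ⟨taA, taB⟩
    · exact ⟨bA, bB⟩
    · exact ⟨b'A, b'B⟩)
  have G3 := gram3 hGR N χ hAA hBB0 hFne N.ta N.b N.be N.ta' N.b' N.be' (by
    intro v hv
    simp only [List.mem_cons, List.not_mem_nil, or_false] at hv
    rcases hv with rfl | rfl | rfl | rfl | rfl | rfl
    · exact ⟨taA, taB⟩
    · exact ⟨bA, bB⟩
    · exact ⟨beA, beB⟩
    · exact ⟨ta'A, ta'B⟩
    · exact ⟨b'A, b'B⟩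
    · exact ⟨be'A, be'B⟩)
  have eU : χ (dot N.ta N.ta) = χ N.U := rfl
  have eV : χ (dot N.ta N.ta') = χ N.V := rfl
  have eS : χ (dot N.b N.b) = χ N.S := rfl
  have eBB : χ (dot N.b N.b') = χ N.BB := rfl
  rw [eU, eV, xt't, xt't', xbt, xbt', xtb', xt'b', eBB] at G1
  rw [xt't, xt'b, xt'b', xbt, eS, eBB, xb't, xb'b, xb'b'] at G2
  rw [eV, xtb', xtabe', xbt', eBB, xbbe', xbet', xbeb'] at G3
  -- mixed second derivative of Z
  have E := hDD R 4 N χ hP5 xal (by rw [xy]; exact one_ne_zero)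
  rw [xD'al, xy, xq, xq', hg, xDal, xD'ph, xDph, xBB] at E
  rw [xBB] at G1 G2 G3
  have cU : (starRingEnd ℂ) (χ N.U) = χ N.U' := by rw [← χ.hcj]; rfl
  rw [cU] at E
  by_contra hV
  have hX : χ N.k1 * χ N.k1' = 3 * χ N.K * χ N.F * (χ N.V ^ 2 - χ N.U * χ N.U') := by
    have e : χ N.V * (χ N.k1 * χ N.k1') =
        χ N.V * (3 * χ N.K * χ N.F * (χ N.V ^ 2 - χ N.U * χ N.U')) := by
      linear_combination G1
    exact mul_left_cancel₀ hV e
  have hW : χ N.S * χ N.S' - (3 * χ N.K * χ N.F * χ N.V) * (3 * χ N.K * χ N.F * χ N.V) =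
      -(3 * χ N.K * χ N.F * (3 * χ N.K * χ N.F * (χ N.V ^ 2 - χ N.U * χ N.U'))) := by
    have e : χ N.V * (χ N.S * χ N.S' - (3 * χ N.K * χ N.F * χ N.V) * (3 * χ N.K * χ N.F * χ N.V)) =
        χ N.V * (-(3 * χ N.K * χ N.F * (3 * χ N.K * χ N.F * (χ N.V ^ 2 - χ N.U * χ N.U')))) := by
      linear_combination G2 - (3 * χ N.K * χ N.F * χ N.V) * hX
    exact mul_left_cancel₀ hV e
  have hKne : χ N.K ≠ 0 := by
    rw [xK]
    exact_mod_cast hk.ne'
  have hFne' : χ N.F ≠ 0 := by rw [hAB] at hFne; exact hFne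
  have hEE : χ N.V * χ (dot N.be N.be') = 4 * χ N.K ^ 2 * χ N.F ^ 2 * (χ N.U * χ N.U') := by
    have e : (3 * χ N.K * χ N.F * χ N.V) * (χ N.V * χ (dot N.be N.be')) =
        (3 * χ N.K * χ N.F * χ N.V) * (4 * χ N.K ^ 2 * χ N.F ^ 2 * (χ N.U * χ N.U')) := by
      linear_combination G3
    exact mul_left_cancel₀ (mul_ne_zero (mul_ne_zero (mul_ne_zero three_ne_zero hKne) hFne') hV) e
  have hT : χ N.K ^ 2 * χ N.F * (-30 * χ N.V ^ 3 + 3 * (χ N.U * χ N.U') * χ N.V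
      - 4 * χ N.F * χ N.V ^ 2 + 4 * χ N.F * (χ N.U * χ N.U')) = 0 := by
    linear_combination χ N.V * E - hEE - (χ N.V * χ N.G) * hW
      + (9 * χ N.K ^ 2 * χ N.F * (χ N.V ^ 2 - χ N.U * χ N.U') * χ N.V) * xG
  -- real values
  obtain ⟨f, hf0, hf⟩ : ∃ f : ℝ, 0 ≤ f ∧ χ N.F = (f : ℂ) := by
    refine ⟨∑ i, ‖χ (N.A i)‖ ^ 2, Finset.sum_nonneg fun i _ => sq_nonneg _, ?_⟩
    rw [← χ.dot_cjv N.A, N.hAB]
  obtain ⟨v, hv0, hv⟩ : ∃ v : ℝ, ‖χ N.U‖ ≤ v ∧ χ N.V = (v : ℂ) := by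
    refine ⟨∑ i, ‖χ (N.ta i)‖ ^ 2, ?_, χ.dot_cjv N.ta⟩
    rw [← eU, Ev.dot]
    refine (norm_sum_le _ _).trans (Finset.sum_le_sum fun i _ => ?_)
    rw [norm_mul, pow_two]
  have hUU : χ N.U * χ N.U' = ((‖χ N.U‖ ^ 2 : ℝ) : ℂ) := by
    rw [← cU, Complex.mul_conj, Complex.normSq_eq_norm_sq]
  rw [xK, hf, hv, hUU] at hT
  have hT' : N.k ^ 2 * f * (-30 * v ^ 3 + 3 * (‖χ N.U‖ ^ 2) * v - 4 * f * v ^ 2
      + 4 * f * (‖χ N.U‖ ^ 2)) = 0 := by
    exact_mod_cast hT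
  have hfp : 0 < f := by
    rcases hf0.lt_or_eq with h | h
    · exact h
    · exfalso; apply hFne'; rw [hf, ← h]; norm_num
  have hvp : 0 < v := by
    rcases ((norm_nonneg _).trans hv0).lt_or_eq with h | h
    · exact h
    · exfalso; apply hV; rw [hv, ← h]; norm_num
  have hn : ‖χ N.U‖ ^ 2 ≤ v ^ 2 := by
    have := norm_nonneg (χ N.U)
    nlinarith
  have hneg : -30 * v ^ 3 + 3 * (‖χ N.U‖ ^ 2) * v - 4 * f * v ^ 2 + 4 * f * (‖χ N.U‖ ^ 2) < 0 := by
    have a1 : 0 ≤ (v ^ 2 - ‖χ N.U‖ ^ 2) * v := mul_nonneg (by linarith) hvp.le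
    have a2 : 0 ≤ f * (v ^ 2 - ‖χ N.U‖ ^ 2) := mul_nonneg hfp.le (by linarith)
    have a3 : 0 < v ^ 3 := by positivity
    nlinarith
  have hpos : 0 < N.k ^ 2 * f := by positivity
  have := mul_neg_of_pos_of_neg hpos hneg
  linarith

end N59
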