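import Pool.Agent.Helper5.N2.Stmts2

/-!
# N2, row BJ: all derivatives are bounded
-/

set_option autoImplicit false

namespace N59
open N2

/-- interior gradient estimates in the scale `BdN` -/
lemma bdn_grad (hG : ST_GRAD) : ∀ (n : ℕ) (f : Sm), BdN n f → BdN n (D' (D f)) → BdN n (D f) := by
  have h0 : ∀ f : Sm, (∃ M : ℝ, ∀ p, ‖ev p f‖ ≤ M) → (∃ M : ℝ, ∀ p, ‖ev p (D' (D f))‖ ≤ M) →
      ∃ M : ℝ, ∀ p, ‖ev p (D f)‖ ≤ M := by
    rintro f ⟨M0, hM0⟩ ⟨M1, hM1⟩
    refine ⟨8 * M0 / 1 + 8 * 1 * M1, fun p => ?_⟩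
    exact hG f p 1 M0 M1 one_pos (fun q _ _ => hM0 q) (fun q _ _ => hM1 q)
  intro n
  induction n with
  | zero => intro f hf hf'; exact h0 f hf hf'
  | succ n ih =>
    intro f hf hf'
    refine ⟨h0 f hf.zero hf'.zero, ?_, hf'.pred⟩
    apply ih (D f) hf.D
    rw [← D_comm (D f)]
    exact hf'.D

lemma bdn_sum {n m : ℕ} (a : Fin m → Sm) (h : ∀ i, BdN n (a i)) : BdN n (∑ i, a i) := by
  classical
  induction (Finset.univ : Finset (Fin m)) using Finset.induction_on with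
  | empty =>
    rw [Finset.sum_empty, ← map_zero (DR.Cst : ℂ →+* Sm)]
    exact BdN.Cst n 0
  | insert i s hi ih => rw [Finset.sum_insert hi]; exact (h i).add ih

lemma bdn_dot {n m : ℕ} (a b : Fin m → Sm) (ha : ∀ i, BdN n (a i)) (hb : ∀ i, BdN n (b i)) :
    BdN n (dot a b) := bdn_sum _ fun i => (ha i).mul (hb i)

lemma bdn_neg {n : ℕ} {f : Sm} (h : BdN n f) : BdN n (-f) := by
  have e : -f = Cst (-1) * f := by rw [map_neg, map_one]; ring
  rw [e]; exact (BdN.Cst n (-1)).mul h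

lemma bdn_sub {n : ℕ} {f g : Sm} (h : BdN n f) (h' : BdN n g) : BdN n (f - g) := by
  rw [sub_eq_add_neg]; exact h.add (bdn_neg h')

lemma toSm_dot {m : ℕ} (a b : Fin m → Smb) :
    toSm (dot a b) = dot (fun i => toSm (a i)) (fun i => toSm (b i)) := by
  simp only [dot, map_sum, map_mul]

theorem st_BJ (h1 : ST_G1) (h2 : ST_G2) (_h3 : ST_G3) (_h4 : ST_G4) (hP : ST_P) (hI : ST_I)
    (hCON : ST_CON) (hGRAD : ST_GRAD) : ST_BJ := by
  rintro m N hP5 hk hy ⟨M, hM⟩
  obtain ⟨cK, cG, cg, cy, GF, DK, D'K, DvB, Dv'A, hBB0, hAB, hAA, psA, psB, DF, D'F, DG, D'G⟩ :=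
    h1 Sm m N
  obtain ⟨bA, bB, taA, taB, b'A, b'B, ta'A, ta'B, hq, hq', Dg, D'g, hal', hU', hVr, hk1', hS', hBBr,
    beA, beB, be'A, be'B⟩ := h2 Sm m N
  obtain ⟨p1, -⟩ := hP Sm m N hP5
  obtain ⟨i1, i2, -, -⟩ := hI Sm m N hP5
  -- the constant `c2`
  obtain ⟨c2, hc2⟩ := hCON _ i1 i2
  have evK : ∀ p, ev p N.K = (N.k : ℂ) := fun p => (ev p).hC _
  have evF : ∀ p, ev p N.F = ((∑ i, ‖ev p (N.A i)‖ ^ 2 : ℝ) : ℂ) := fun p => by
    rw [← (ev p).dot_cjv N.A, N.hAB]
  have evg : ∀ p, ev p N.g = ((∑ i, ‖ev p (N.ps i)‖ ^ 2 : ℝ) : ℂ) := fun p => by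
    have e2 := (ev p).dot_cjv N.ps
    rw [N.hpr] at e2
    exact e2
  have evy : ∀ p, ev p N.y = 1 - (N.k : ℂ) * ev p N.g := fun p => by
    simp only [Nt.y, map_sub, map_one, map_mul, evK]
  have evFne : ∀ p, ev p N.F ≠ 0 := fun p h => by
    have e : ev p N.F * ev p N.G = 1 := by rw [← map_mul, N.hFG, map_one]
    rw [h, zero_mul] at e
    exact zero_ne_one e
  have evyne : ∀ p, ev p N.y ≠ 0 := fun p h => by
    have := hy p
    rw [h] at this
    exact lt_irrefl _ this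
  have hc20 : c2 ≠ 0 := by
    have e := congrArg (ev (0, 0)).h hc2
    simp only [map_mul] at e
    rw [(ev (0, 0)).hC] at e
    rw [← e]
    exact mul_ne_zero (mul_ne_zero (mul_ne_zero (mul_ne_zero (evFne _) (evFne _)) (evyne _))
      (evyne _)) (evyne _)
  have hcc : (Cst (1 / c2) : Sm) * Cst c2 = 1 := by
    rw [← map_mul, one_div, inv_mul_cancel₀ hc20, map_one]
  -- bounded functions
  have hAb : ∀ i, ∃ M : ℝ, ∀ p, ‖ev p (N.A i)‖ ≤ M := by
    intro i
    refine ⟨Real.sqrt M, fun p => ?_⟩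
    apply Real.le_sqrt_of_sq_le
    have e1 := hM p
    rw [evF p, Complex.ofReal_re] at e1
    exact (Finset.single_le_sum (f := fun i => ‖ev p (N.A i)‖ ^ 2) (fun j _ => sq_nonneg _)
      (Finset.mem_univ i)).trans e1
  have hpb : ∀ i, ∃ M : ℝ, ∀ p, ‖ev p (N.ps i)‖ ≤ M := by
    intro i
    refine ⟨Real.sqrt (1 / N.k), fun p => ?_⟩
    apply Real.le_sqrt_of_sq_le
    have e1 := hy p
    rw [evy p, evg p] at e1
    have e2 : (1 - (N.k : ℂ) * ((∑ i, ‖ev p (N.ps i)‖ ^ 2 : ℝ) : ℂ)).re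
        = 1 - N.k * ∑ i, ‖ev p (N.ps i)‖ ^ 2 := by
      rw [← Complex.ofReal_mul, ← Complex.ofReal_one, ← Complex.ofReal_sub, Complex.ofReal_re]
    rw [e2] at e1
    have e3 := Finset.single_le_sum (f := fun i => ‖ev p (N.ps i)‖ ^ 2) (fun j _ => sq_nonneg _)
      (Finset.mem_univ i)
    have e4 : ∑ i, ‖ev p (N.ps i)‖ ^ 2 ≤ 1 / N.k := by
      rw [le_div_iff₀ hk]
      nlinarith
    exact e3.trans e4
  have hFb : ∃ M : ℝ, ∀ p, ‖ev p N.F‖ ≤ M := by
    refine ⟨M, fun p => ?_⟩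
    have e1 := hM p
    rw [evF p, Complex.ofReal_re] at e1
    rw [evF p, Complex.norm_real, Real.norm_of_nonneg (Finset.sum_nonneg fun i _ => sq_nonneg _)]
    exact e1
  -- structure equations
  have hPhc : ∀ i, ∃ c : ℂ, N.Ph i = Cst c := fun i =>
    hCON _ (congrFun hP5 i) (congrFun N.hPhi i)
  have hDps : ∀ i, D (N.ps i) = N.A i - N.Ph i := by
    intro i
    simp only [Nt.Ph, Pi.sub_apply, Dv]
    ring
  have hD'ps : ∀ i, D' (N.ps i) = cj (D (N.ps i)) := by
    intro i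
    rw [← D'_cj]
    have : cj (N.ps i) = N.ps i := congrFun N.hpr i
    rw [this]
  have hD'A : ∀ i, D' (N.A i) = -(N.K * N.F * N.ps i) := by
    intro i
    have := congrFun Dv'A i
    simp only [Dv', Pi.smul_apply, smul_eq_mul] at this
    rw [this]; ring
  have hph : N.ph = Cst (1 / c2) * (N.F * N.F * N.y * N.y) * (3 * N.K * N.al) := by
    rw [← p1]
    have e : Cst (1 / c2) * (N.F * N.F * N.y * N.y) * (N.y * N.ph)
        = (Cst (1 / c2) * (N.F * N.F * N.y * N.y * N.y)) * N.ph := by ring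
    rw [e, hc2, hcc, one_mul]
  have hGe : N.G = Cst (1 / c2) * (N.F * N.y * N.y * N.y) := by
    have e : N.G * (N.F * N.F * N.y * N.y * N.y) = N.F * N.y * N.y * N.y := by
      linear_combination (N.F * N.y * N.y * N.y) * GF
    rw [← e, hc2]
    have e2 : Cst (1 / c2) * (N.G * Cst c2) = (Cst (1 / c2) * Cst c2) * N.G := by ring
    rw [e2, hcc, one_mul]
  have hale : N.al = Cst (1 / 2) * D N.g := by
    rw [Dg]
    have e : (Cst (1 / 2) : Sm) * 2 = 1 := by
      have : (2 : Sm) = Cst 2 := (map_ofNat (Cst : ℂ →+* Sm) 2).symm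
      rw [this, ← map_mul]
      norm_num
    linear_combination (-N.al) * e
  have hye : N.y = 1 - N.K * N.g := rfl
  have hFe : N.F = dot N.A (cjv N.A) := N.hAB.symm
  have h1b : ∀ n, BdN n (1 : Sm) := fun n => by
    rw [← map_one (DR.Cst : ℂ →+* Sm)]; exact BdN.Cst n 1
  have h3b : ∀ n, BdN n (3 : Sm) := fun n => by
    have : (3 : Sm) = Cst 3 := (map_ofNat (Cst : ℂ →+* Sm) 3).symm
    rw [this]; exact BdN.Cst n 3
  have hKb : ∀ n, BdN n N.K := fun n => BdN.Cst n _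
  have hyb : ∀ n, (∀ i, BdN n (N.ps i)) → BdN n N.y := by
    intro n hp
    rw [hye]
    exact bdn_sub (h1b n) ((hKb n).mul (bdn_dot _ _ hp hp))
  have hFb' : ∀ n, (∀ i, BdN n (N.A i)) → BdN n N.F := by
    intro n hA
    rw [hFe]
    exact bdn_dot _ _ hA (fun i => (hA i).cj)
  -- main induction
  have main : ∀ n, (∀ i, BdN n (N.A i)) ∧ (∀ i, BdN n (N.ps i)) := by
    intro n
    induction n with
    | zero => exact ⟨hAb, hpb⟩
    | succ n ih =>
      obtain ⟨ihA, ihp⟩ := ih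
      have hps : ∀ i, BdN (n + 1) (N.ps i) := by
        intro i
        have e1 : BdN n (D (N.ps i)) := by
          rw [hDps i]
          obtain ⟨c, hc⟩ := hPhc i
          rw [hc]
          exact bdn_sub (ihA i) (BdN.Cst n c)
        refine ⟨hpb i, e1, ?_⟩
        rw [hD'ps i]
        exact e1.cj
      have hg : BdN (n + 1) N.g := bdn_dot _ _ hps hps
      have hy1 : BdN n N.y := hyb n ihp
      have hF1 : BdN n N.F := hFb' n ihA
      have hal : BdN n N.al := by
        rw [hale]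
        exact (BdN.Cst n _).mul hg.D
      have hphb : BdN n N.ph := by
        rw [hph]
        exact ((BdN.Cst n _).mul (((hF1.mul hF1).mul hy1).mul hy1)).mul
          (((h3b n).mul (hKb n)).mul hal)
      have hDFb : BdN n (D N.F) := by rw [DF]; exact hphb.mul hF1
      have hF2 : BdN (n + 1) N.F := by
        refine ⟨hFb, hDFb, ?_⟩
        have e : D' N.F = cj (D N.F) := by rw [← D'_cj, N.hFr]
        rw [e]
        exact hDFb.cj
      have hD'Ab : ∀ i, BdN (n + 1) (D' (N.A i)) := by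
        intro i
        rw [hD'A i]
        exact bdn_neg (((hKb _).mul hF2).mul (hps i))
      refine ⟨fun i => ⟨hAb i, ?_, (hD'Ab i).pred⟩, hps⟩
      apply bdn_grad hGRAD n _ (ihA i)
      rw [← D_comm]
      exact (hD'Ab i).D
  have bA : ∀ i, Bdd (N.A i) := fun i n => (main n).1 i
  have bps : ∀ i, Bdd (N.ps i) := fun i n => (main n).2 i
  have bF : Bdd N.F := fun n => hFb' n (main n).1
  have bG : Bdd N.G := fun n => by
    rw [hGe]
    have hF1 := bF n
    have hy1 := hyb n (main n).2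
    exact (BdN.Cst n _).mul (((hF1.mul hy1).mul hy1).mul hy1)
  let A' : Fin m → Smb := fun i => Smb.mk (N.A i) (bA i)
  let ps' : Fin m → Smb := fun i => Smb.mk (N.ps i) (bps i)
  let F' : Smb := Smb.mk N.F bF
  let G' : Smb := Smb.mk N.G bG
  have hPh' : ∀ i, toSm (A' i - D (ps' i)) = N.Ph i := fun i => by
    rw [map_sub, toSm_D]; rfl
  refine ⟨{ k := N.k, hk := N.hk, A := A', ps := ps', F := F', G := G',
            hFG := ?_, hFr := ?_, hpr := ?_, hAA := ?_, hAB := ?_, hA := ?_, hPhi := ?_ },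
    rfl, fun i => rfl, fun i => rfl, ?_⟩
  · apply toSm_inj
    rw [map_mul, map_one]
    exact N.hFG
  · apply toSm_inj
    exact N.hFr
  · funext i
    apply toSm_inj
    exact congrFun N.hpr i
  · apply toSm_inj
    rw [toSm_dot, map_zero]
    exact N.hAA
  · apply toSm_inj
    rw [toSm_dot]
    exact N.hAB
  · funext i
    apply toSm_inj
    have e := congrFun N.hA i
    simp only [Pi.smul_apply, smul_eq_mul] at e ⊢
    rw [map_mul, map_neg, map_mul]
    exact e
  · funext i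
    apply toSm_inj
    have e := congrFun N.hPhi i
    show toSm (D' (A' i - D (ps' i))) = toSm 0
    rw [toSm_D', hPh' i, map_zero]
    exact e
  · funext i
    apply toSm_inj
    have e := congrFun hP5 i
    show toSm (D (A' i - D (ps' i))) = toSm 0
    rw [toSm_D, hPh' i, map_zero]
    exact e

end N59
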